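import Pool.Agent.Q234.KG.Stm

/-!
# Job KG-AL of project KG (helper277): the rooted norm is submultiplicative (after helper192, KT-AL)
-/

set_option autoImplicit false

open scoped BigOperators
open Finset

namespace Pool.Agent.Q277.KG.AL

open Pool.Agent.Q234.KG
open Pool.Agent.Q234.KT (IsSize)

section

variable {V : Type} [Fintype V] [DecidableEq V] {d : ℕ} [NeZero d]

/-- the convolution: the total sum is the product -/
theorem conv (a b : (V → Fin d) → ℝ) :
    ∑ k : V → Fin d, ∑ m : V → Fin d, a m * b (k - m) = (∑ m, a m) * ∑ m, b m := by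
  rw [Finset.sum_comm, Finset.sum_mul]
  refine Finset.sum_congr rfl fun m _ => ?_
  rw [← Finset.mul_sum]
  congr 1
  exact Equiv.sum_comp (Equiv.subRight m) b

end

theorem main (hW : FourS) : AlgS := by
  intro d _ V _ _ t r S ht hr hS F G
  have h3 := (hW d V).2.2.1
  have hr0 : (0 : ℝ) ≤ r := by linarith
  have hpow : ∀ m k : V → Fin d,
      r ^ t (S ∪ sp k) ≤ r ^ t (S ∪ sp m) * r ^ t (S ∪ sp (k - m)) := by
    intro m k
    rw [← pow_add]
    refine pow_le_pow_right₀ hr ?_
    have hsub : S ∪ sp k ⊆ (S ∪ sp m) ∪ (S ∪ sp (k - m)) := by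
      intro v hv
      unfold sp at hv ⊢
      simp only [Finset.mem_union, Finset.mem_filter, Finset.mem_univ, true_and, Pi.sub_apply] at hv ⊢
      rcases hv with hv | hv
      · exact Or.inl (Or.inl hv)
      · by_cases hm : m v = 0
        · right
          right
          rw [hm, sub_zero]
          exact hv
        · exact Or.inl (Or.inr hm)
    refine (ht.mono _ _ hsub).trans (ht.union _ _ ?_)
    obtain ⟨v, hv⟩ := hS
    exact ⟨v, by simp [hv]⟩
  have hpt : ∀ k : V → Fin d, ‖co (fun σ => F σ * G σ) k‖ * r ^ t (S ∪ sp k) ≤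
      ∑ m : V → Fin d, (‖co F m‖ * r ^ t (S ∪ sp m)) *
        (‖co G (k - m)‖ * r ^ t (S ∪ sp (k - m))) := by
    intro k
    have h1 : ‖co (fun σ => F σ * G σ) k‖ ≤ ∑ m : V → Fin d, ‖co F m‖ * ‖co G (k - m)‖ := by
      rw [h3 F G k]
      refine (norm_sum_le _ _).trans (le_of_eq ?_)
      exact Finset.sum_congr rfl fun m _ => norm_mul _ _
    calc ‖co (fun σ => F σ * G σ) k‖ * r ^ t (S ∪ sp k)
        ≤ (∑ m : V → Fin d, ‖co F m‖ * ‖co G (k - m)‖) * r ^ t (S ∪ sp k) :=
          mul_le_mul_of_nonneg_right h1 (pow_nonneg hr0 _)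
      _ = ∑ m : V → Fin d, ‖co F m‖ * ‖co G (k - m)‖ * r ^ t (S ∪ sp k) := by
          rw [Finset.sum_mul]
      _ ≤ ∑ m : V → Fin d, (‖co F m‖ * r ^ t (S ∪ sp m)) *
        (‖co G (k - m)‖ * r ^ t (S ∪ sp (k - m))) := by
          refine Finset.sum_le_sum fun m _ => ?_
          calc ‖co F m‖ * ‖co G (k - m)‖ * r ^ t (S ∪ sp k)
              ≤ ‖co F m‖ * ‖co G (k - m)‖ *
                (r ^ t (S ∪ sp m) * r ^ t (S ∪ sp (k - m))) :=
                mul_le_mul_of_nonneg_left (hpow m k) (by positivity)
            _ = _ := by ring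
  set a : (V → Fin d) → ℝ := fun m => ‖co F m‖ * r ^ t (S ∪ sp m) with ha
  set b : (V → Fin d) → ℝ := fun m => ‖co G m‖ * r ^ t (S ∪ sp m) with hb
  have ha0 : ∀ m, 0 ≤ a m := fun m => by simp only [ha]; positivity
  have hb0 : ∀ m, 0 ≤ b m := fun m => by simp only [hb]; positivity
  refine ⟨?_, ?_⟩
  · have : nm r t S (fun σ => F σ * G σ) ≤ ∑ k : V → Fin d, ∑ m : V → Fin d, a m * b (k - m) :=
      Finset.sum_le_sum fun k _ => hpt k
    rw [conv] at this
    exact this
  · intro x
    have e1 : nx r t S x (fun σ => F σ * G σ) ≤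
        ∑ k : V → Fin d, ∑ m : V → Fin d, ((if m x ≠ 0 then a m else 0) * b (k - m) +
          a m * (if (k - m) x ≠ 0 then b (k - m) else 0)) := by
      unfold nx
      rw [Finset.sum_filter]
      refine Finset.sum_le_sum fun k _ => ?_
      by_cases hx : k x ≠ 0
      · rw [if_pos hx]
        refine (hpt k).trans (Finset.sum_le_sum fun m _ => ?_)
        have hab : 0 ≤ a m * b (k - m) := mul_nonneg (ha0 _) (hb0 _)
        by_cases h1 : m x ≠ 0
        · rw [if_pos h1]
          have : 0 ≤ a m * (if (k - m) x ≠ 0 then b (k - m) else 0) := by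
            refine mul_nonneg (ha0 _) ?_
            split_ifs
            · exact hb0 _
            · exact le_rfl
          show a m * b (k - m) ≤ _
          linarith
        · have h2 : (k - m) x ≠ 0 := by
            rw [Pi.sub_apply, not_not.1 h1, sub_zero]
            exact hx
          rw [if_neg h1, if_pos h2]
          show a m * b (k - m) ≤ _
          linarith
      · rw [if_neg hx]
        refine Finset.sum_nonneg fun m _ => add_nonneg (mul_nonneg ?_ (hb0 _))
          (mul_nonneg (ha0 _) ?_)
        · split_ifs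
          · exact ha0 _
          · exact le_rfl
        · split_ifs
          · exact hb0 _
          · exact le_rfl
    refine e1.trans (le_of_eq ?_)
    simp only [Finset.sum_add_distrib]
    rw [conv (fun m => if m x ≠ 0 then a m else 0) b,
      conv a (fun m => if m x ≠ 0 then b m else 0)]
    unfold nx nm
    simp only [Finset.sum_filter]
    rfl

end Pool.Agent.Q277.KG.AL
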