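import Pool.Agent.Q234.KG.Stm

/-!
# Fourier analysis on `(Fin d)^V` (job KG-FO of project KG, helper277)
-/

set_option autoImplicit false

open scoped BigOperators
open Finset Pool.Agent.Q234.KG

namespace Pool.Agent.Q277.KG.FO

section one

variable {d : ℕ} [NeZero d]

/-- the root of unity -/
noncomputable def zt (d : ℕ) : ℂ := Complex.exp (2 * Real.pi * Complex.I / d)

theorem zt_prim : IsPrimitiveRoot (zt d) d := Complex.isPrimitiveRoot_exp d (NeZero.ne d)

theorem zt_pow : zt d ^ d = 1 := zt_prim.pow_eq_one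

theorem cr_eq (a b : Fin d) : cr a b = (zt d ^ (a : ℕ)) ^ (b : ℕ) := by
  unfold cr zt
  rw [← pow_mul, ← Complex.exp_nat_mul]
  congr 1
  push_cast
  ring

theorem zta_pow (a : ℕ) : (zt d ^ a) ^ d = 1 := by
  rw [← pow_mul, mul_comm, pow_mul, zt_pow, one_pow]

theorem cr_symm (a b : Fin d) : cr a b = cr b a := by
  unfold cr
  rw [mul_comm ((a : ℕ) : ℂ)]

theorem cr_add (a b b' : Fin d) : cr a (b + b') = cr a b * cr a b' := by
  rw [cr_eq, cr_eq, cr_eq, ← pow_add, Fin.val_add]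
  exact (pow_eq_pow_mod _ (zta_pow _)).symm

theorem cr_zero (a : Fin d) : cr a 0 = 1 := by
  rw [cr_eq]
  simp

theorem zero_cr (a : Fin d) : cr 0 a = 1 := by
  rw [cr_symm, cr_zero]

theorem add_cr (a a' b : Fin d) : cr (a + a') b = cr a b * cr a' b := by
  rw [cr_symm, cr_add, cr_symm b a, cr_symm b a']

theorem cr_norm (a b : Fin d) : ‖cr a b‖ = 1 := by
  have h : ‖cr a b‖ ^ d = 1 := by
    rw [← norm_pow, cr_eq, ← pow_mul, mul_comm, pow_mul, zta_pow, one_pow, norm_one]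
  exact (pow_eq_one_iff_of_nonneg (norm_nonneg _) (NeZero.ne d)).1 h

theorem cr_sum (a : Fin d) : ∑ b, cr a b = if a = 0 then (d : ℂ) else 0 := by
  split_ifs with h
  · subst h
    rw [Finset.sum_congr rfl fun b _ => zero_cr b]
    simp
  · have h1 : zt d ^ (a : ℕ) ≠ 1 := by
      intro h2
      have h3 := (zt_prim (d := d)).dvd_of_pow_eq_one _ h2
      have h4 : (a : ℕ) = 0 := Nat.eq_zero_of_dvd_of_lt h3 a.isLt
      exact h (Fin.ext (by simpa using h4))
    have h5 : ∑ b : Fin d, cr a b = ∑ i ∈ Finset.range d, (zt d ^ (a : ℕ)) ^ i := by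
      rw [← Fin.sum_univ_eq_sum_range]
      exact Finset.sum_congr rfl fun b _ => cr_eq a b
    have h6 := mul_geom_sum (zt d ^ (a : ℕ)) d
    rw [zta_pow, sub_self, ← h5] at h6
    exact (mul_eq_zero.1 h6).resolve_left (sub_ne_zero.2 h1)

theorem cr_conj (a b : Fin d) : cr a b * (starRingEnd ℂ) (cr a b) = 1 := by
  rw [Complex.mul_conj, Complex.normSq_eq_norm_sq, cr_norm]
  norm_num

end one

variable {V : Type} [Fintype V] [DecidableEq V] {d : ℕ} [NeZero d]

/-- (4) -/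
theorem ch_add (m σ c : V → Fin d) : ch m (σ + c) = ch m c * ch m σ := by
  unfold ch
  rw [← Finset.prod_mul_distrib]
  refine Finset.prod_congr rfl fun v _ => ?_
  rw [Pi.add_apply, cr_add, mul_comm]

/-- (5) -/
theorem ch_mul (m k σ : V → Fin d) : ch m σ * ch k σ = ch (m + k) σ := by
  unfold ch
  rw [← Finset.prod_mul_distrib]
  refine Finset.prod_congr rfl fun v _ => ?_
  rw [Pi.add_apply, add_cr]

/-- (8) -/
theorem ch_norm (m σ : V → Fin d) : ‖ch m σ‖ = 1 := by
  unfold ch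
  rw [norm_prod]
  exact Finset.prod_eq_one fun v _ => cr_norm _ _

theorem ch_conj (m σ : V → Fin d) : ch m σ * (starRingEnd ℂ) (ch m σ) = 1 := by
  rw [Complex.mul_conj, Complex.normSq_eq_norm_sq, ch_norm]
  norm_num

/-- (9) -/
theorem ch_disj (m c : V → Fin d) (h : ∀ v, m v = 0 ∨ c v = 0) : ch m c = 1 := by
  unfold ch
  refine Finset.prod_eq_one fun v _ => ?_
  rcases h v with h | h
  · rw [h, zero_cr]
  · rw [h, cr_zero]

/-- (10) -/
theorem ch_single (m : V → Fin d) (u : V) (a : Fin d) : ch m (Pi.single u a) = cr (m u) a := by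
  unfold ch
  rw [Finset.prod_eq_single u]
  · rw [Pi.single_eq_same]
  · intro v _ hv
    rw [Pi.single_eq_of_ne hv, cr_zero]
  · intro h
    exact absurd (Finset.mem_univ u) h

theorem ch_swap (m σ : V → Fin d) : ch m σ = ch σ m := by
  unfold ch
  exact Finset.prod_congr rfl fun v _ => cr_symm _ _

theorem ch_sub (m k σ : V → Fin d) :
    ch m σ * (starRingEnd ℂ) (ch k σ) = (starRingEnd ℂ) (ch (k - m) σ) := by
  have h : ch (k - m) σ * ch m σ = ch k σ := by
    rw [ch_mul, sub_add_cancel]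
  rw [← h, map_mul]
  have h2 := ch_conj m σ
  linear_combination (starRingEnd ℂ) (ch (k - m) σ) * h2

theorem orth (m : V → Fin d) :
    ∑ σ : V → Fin d, ch m σ = if m = 0 then (d : ℂ) ^ Fintype.card V else 0 := by
  have h1 : ∑ σ : V → Fin d, ch m σ = ∏ v, ∑ b, cr (m v) b := by
    rw [Finset.prod_univ_sum, Fintype.piFinset_univ]
    rfl
  rw [h1]
  split_ifs with h
  · subst h
    rw [Finset.prod_congr rfl fun v _ => cr_sum _]
    simp
  · obtain ⟨v, hv⟩ := Function.ne_iff.1 h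
    have hv' : m v ≠ 0 := hv
    refine Finset.prod_eq_zero (Finset.mem_univ v) ?_
    rw [cr_sum, if_neg hv']

theorem orth' (m : V → Fin d) :
    ∑ σ : V → Fin d, (starRingEnd ℂ) (ch m σ) = if m = 0 then (d : ℂ) ^ Fintype.card V else 0 := by
  rw [← map_sum, orth]
  split_ifs
  · rw [map_pow, Complex.conj_natCast]
  · exact map_zero _

theorem pow_ne : ((d : ℂ) ^ Fintype.card V) ≠ 0 :=
  pow_ne_zero _ (Nat.cast_ne_zero.2 (NeZero.ne d))

/-- (1) -/
theorem inv (F : (V → Fin d) → ℂ) (σ : V → Fin d) :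
    F σ = ∑ m : V → Fin d, co F m * ch m σ := by
  have h : ∑ m : V → Fin d, co F m * ch m σ =
      ((d : ℂ) ^ Fintype.card V)⁻¹ * ∑ τ, F τ * ∑ m : V → Fin d, (starRingEnd ℂ) (ch (τ - σ) m) := by
    unfold co
    simp only [Finset.mul_sum, Finset.sum_mul]
    rw [Finset.sum_comm]
    refine Finset.sum_congr rfl fun τ _ => Finset.sum_congr rfl fun m _ => ?_
    rw [← ch_sub, ch_swap σ m, ch_swap τ m]
    ring
  rw [h, Finset.sum_congr rfl fun τ _ => by rw [orth' (τ - σ)]]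
  simp only [sub_eq_zero, mul_ite, mul_zero, Finset.sum_ite_eq', Finset.mem_univ, if_true]
  rw [mul_comm (F σ), ← mul_assoc, inv_mul_cancel₀ pow_ne, one_mul]

/-- (2) -/
theorem co_sum (c : (V → Fin d) → ℂ) (k : V → Fin d) :
    co (fun σ => ∑ m : V → Fin d, c m * ch m σ) k = c k := by
  unfold co
  have h : ∑ σ : V → Fin d, (∑ m : V → Fin d, c m * ch m σ) * (starRingEnd ℂ) (ch k σ) =
      ∑ m : V → Fin d, c m * ∑ σ : V → Fin d, (starRingEnd ℂ) (ch (k - m) σ) := by
    simp only [Finset.mul_sum, Finset.sum_mul]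
    rw [Finset.sum_comm]
    refine Finset.sum_congr rfl fun m _ => Finset.sum_congr rfl fun σ _ => ?_
    rw [mul_assoc, ch_sub]
  rw [h, Finset.sum_congr rfl fun m _ => by rw [orth']]
  simp only [sub_eq_zero, mul_ite, mul_zero, Finset.sum_ite_eq, Finset.mem_univ, if_true]
  rw [mul_comm (c k), ← mul_assoc, inv_mul_cancel₀ pow_ne, one_mul]

/-- (3) -/
theorem co_mul (F G : (V → Fin d) → ℂ) (k : V → Fin d) :
    co (fun σ => F σ * G σ) k = ∑ m : V → Fin d, co F m * co G (k - m) := by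
  have h : ∑ σ : V → Fin d, F σ * G σ * (starRingEnd ℂ) (ch k σ) =
      ∑ m : V → Fin d, co F m * ∑ σ : V → Fin d, G σ * (starRingEnd ℂ) (ch (k - m) σ) := by
    simp only [Finset.mul_sum]
    rw [Finset.sum_comm]
    refine Finset.sum_congr rfl fun σ _ => ?_
    rw [inv F σ, Finset.sum_mul, Finset.sum_mul]
    refine Finset.sum_congr rfl fun m _ => ?_
    rw [← ch_sub]
    ring
  change ((d : ℂ) ^ Fintype.card V)⁻¹ * ∑ σ : V → Fin d, F σ * G σ * (starRingEnd ℂ) (ch k σ) = _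
  rw [h, Finset.mul_sum]
  refine Finset.sum_congr rfl fun m _ => ?_
  change _ = co F m * (((d : ℂ) ^ Fintype.card V)⁻¹ *
    ∑ σ : V → Fin d, G σ * (starRingEnd ℂ) (ch (k - m) σ))
  ring

/-- (6) -/
theorem co_le (F : (V → Fin d) → ℂ) (ω : ℝ) (hF : ∀ σ, ‖F σ‖ ≤ ω) (m : V → Fin d) :
    ‖co F m‖ ≤ ω := by
  have hd : (0 : ℝ) < (d : ℝ) := Nat.cast_pos.2 (Nat.pos_of_ne_zero (NeZero.ne d))
  unfold co
  rw [norm_mul, norm_inv, norm_pow, Complex.norm_natCast, inv_mul_le_iff₀ (by positivity)]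
  refine (norm_sum_le _ _).trans ?_
  refine (Finset.sum_le_sum fun σ _ => ?_).trans_eq
    (b := ∑ _σ : V → Fin d, ω) ?_
  · rw [norm_mul, RCLike.norm_conj, ch_norm, mul_one]
    exact hF σ
  · rw [Finset.sum_const, Finset.card_univ, Fintype.card_fun, Fintype.card_fin, nsmul_eq_mul]
    push_cast
    ring

/-- (7) -/
theorem co_supp (F : (V → Fin d) → ℂ) (B : Finset V)
    (hF : ∀ σ τ : V → Fin d, (∀ v ∈ B, σ v = τ v) → F σ = F τ) (m : V → Fin d)
    (hm : ¬ sp m ⊆ B) : co F m = 0 := by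
  obtain ⟨v, hv, hvB⟩ := Finset.not_subset.1 hm
  have hmv : m v ≠ 0 := (Finset.mem_filter.1 hv).2
  obtain ⟨a, ha⟩ : ∃ a : Fin d, cr (m v) a ≠ 1 := by
    by_contra hne
    push Not at hne
    have h1 := cr_sum (m v)
    rw [if_neg hmv, Finset.sum_congr rfl fun b _ => hne b] at h1
    simp at h1
    exact NeZero.ne d h1
  have h1 : ∑ σ : V → Fin d, F σ * (starRingEnd ℂ) (ch m σ) =
      ∑ σ : V → Fin d, F (σ + Pi.single v a) * (starRingEnd ℂ) (ch m (σ + Pi.single v a)) :=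
    (Equiv.sum_comp (Equiv.addRight (Pi.single v a : V → Fin d))
      fun σ => F σ * (starRingEnd ℂ) (ch m σ)).symm
  have h2 : ∑ σ : V → Fin d, F (σ + Pi.single v a) * (starRingEnd ℂ) (ch m (σ + Pi.single v a)) =
      (starRingEnd ℂ) (cr (m v) a) * ∑ σ : V → Fin d, F σ * (starRingEnd ℂ) (ch m σ) := by
    rw [Finset.mul_sum]
    refine Finset.sum_congr rfl fun σ _ => ?_
    have h3 : F (σ + Pi.single v a) = F σ := hF _ _ fun u hu => by
      rw [Pi.add_apply, Pi.single_eq_of_ne, add_zero]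
      intro h
      exact hvB (h ▸ hu)
    rw [h3, ch_add, ch_single, map_mul]
    ring
  rw [h2] at h1
  have h4 : (1 - (starRingEnd ℂ) (cr (m v) a)) * ∑ σ : V → Fin d, F σ * (starRingEnd ℂ) (ch m σ) = 0 := by
    linear_combination h1
  have h5 : 1 - (starRingEnd ℂ) (cr (m v) a) ≠ 0 := by
    intro h6
    apply ha
    have h7 : (starRingEnd ℂ) (cr (m v) a) = 1 := (sub_eq_zero.1 h6).symm
    have h8 := congrArg (starRingEnd ℂ) h7
    rwa [Complex.conj_conj, map_one] at h8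
  unfold co
  rw [(mul_eq_zero.1 h4).resolve_left h5, mul_zero]

theorem main : FourS := fun d _ V _ _ =>
  ⟨inv, co_sum, co_mul, ch_add, ch_mul, fun F ω hF m => co_le F ω hF m,
    fun F B hF m hm => co_supp F B hF m hm, ch_norm, ch_disj, ch_single⟩

end Pool.Agent.Q277.KG.FO
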