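import Pool.Agent.Q277.KG.FO

/-!
# Job KG-GA of project KG (helper277): the gap (after helper73, helper285 for project KT)
-/

set_option autoImplicit false

open scoped BigOperators
open Finset Filter Topology Pool.Agent.Q234.KG

namespace Pool.Agent.Q277.KG.GA

open Pool.Agent.Q277.KG.FO

section

variable {V : Type} [Fintype V] [DecidableEq V] {d : ℕ} [NeZero d]

theorem co_sub (F G : (V → Fin d) → ℂ) (m : V → Fin d) :
    co (fun σ => F σ - G σ) m = co F m - co G m := by
  unfold co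
  rw [← mul_sub, ← Finset.sum_sub_distrib]
  congr 1
  exact Finset.sum_congr rfl fun σ _ => by ring

theorem co_add (F G : (V → Fin d) → ℂ) (m : V → Fin d) :
    co (fun σ => F σ + G σ) m = co F m + co G m := by
  unfold co
  rw [← mul_add, ← Finset.sum_add_distrib]
  congr 1
  exact Finset.sum_congr rfl fun σ _ => by ring

theorem co_smul (c : ℂ) (F : (V → Fin d) → ℂ) (m : V → Fin d) :
    co (fun σ => c * F σ) m = c * co F m := by
  unfold co
  rw [Finset.mul_sum, Finset.mul_sum, Finset.mul_sum]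
  exact Finset.sum_congr rfl fun σ _ => by ring

theorem co_sumf {ι : Type*} (s : Finset ι) (F : ι → (V → Fin d) → ℂ) (m : V → Fin d) :
    co (fun σ => ∑ i ∈ s, F i σ) m = ∑ i ∈ s, co (F i) m := by
  unfold co
  rw [← Finset.mul_sum]
  congr 1
  rw [Finset.sum_comm]
  exact Finset.sum_congr rfl fun σ _ => by rw [Finset.sum_mul]

theorem zero_ch (σ : V → Fin d) : ch (0 : V → Fin d) σ = 1 :=
  ch_disj _ _ fun _ => Or.inl rfl

theorem sum_shift (g : (V → Fin d) → ℂ) (c σ : V → Fin d) :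
    ∑ m : V → Fin d, g m * ch m (σ + c) = ∑ m : V → Fin d, g m * ch m σ + Gp g c σ := by
  unfold Gp
  rw [← Finset.sum_add_distrib]
  refine Finset.sum_congr rfl fun m _ => ?_
  rw [ch_add]
  ring

theorem psi_shift (g : (V → Fin d) → ℂ) (c σ : V → Fin d) :
    Psi g (σ + c) = Psi g σ * Complex.exp (Gp g c σ) := by
  unfold Psi
  rw [sum_shift, Complex.exp_add]

theorem psi_ne (g : (V → Fin d) → ℂ) (σ : V → Fin d) : Psi g σ ≠ 0 := Complex.exp_ne_zero _

theorem co_Gp (g : (V → Fin d) → ℂ) (c m : V → Fin d) :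
    co (fun σ => Gp g c σ) m = g m * (ch m c - 1) :=
  co_sum (fun m => g m * (ch m c - 1)) m

/-- the sum of the absolute values of the coefficients -/
noncomputable def l1 (F : (V → Fin d) → ℂ) : ℝ := ∑ m : V → Fin d, ‖co F m‖

theorem l1_nonneg (F : (V → Fin d) → ℂ) : 0 ≤ l1 F := Finset.sum_nonneg fun _ _ => norm_nonneg _

theorem l1_mul (F G : (V → Fin d) → ℂ) : l1 (fun σ => F σ * G σ) ≤ l1 F * l1 G := by
  unfold l1
  calc ∑ k : V → Fin d, ‖co (fun σ => F σ * G σ) k‖
      ≤ ∑ k : V → Fin d, ∑ m : V → Fin d, ‖co F m‖ * ‖co G (k - m)‖ := by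
        refine Finset.sum_le_sum fun k _ => ?_
        rw [co_mul]
        refine (norm_sum_le _ _).trans ?_
        exact Finset.sum_le_sum fun m _ => by rw [norm_mul]
    _ = ∑ m : V → Fin d, ‖co F m‖ * ∑ k : V → Fin d, ‖co G k‖ := by
        rw [Finset.sum_comm]
        refine Finset.sum_congr rfl fun m _ => ?_
        rw [← Finset.mul_sum]
        congr 1
        exact Equiv.sum_comp (Equiv.subRight m) fun k => ‖co G k‖
    _ = (∑ m : V → Fin d, ‖co F m‖) * ∑ k : V → Fin d, ‖co G k‖ := by rw [Finset.sum_mul]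

theorem l1_add (F G : (V → Fin d) → ℂ) : l1 (fun σ => F σ + G σ) ≤ l1 F + l1 G := by
  unfold l1
  rw [← Finset.sum_add_distrib]
  refine Finset.sum_le_sum fun m _ => ?_
  rw [co_add]
  exact norm_add_le _ _

theorem l1_smul (c : ℂ) (F : (V → Fin d) → ℂ) : l1 (fun σ => c * F σ) = ‖c‖ * l1 F := by
  unfold l1
  rw [Finset.mul_sum]
  refine Finset.sum_congr rfl fun m _ => ?_
  rw [co_smul, norm_mul]

theorem l1_sum {ι : Type*} (s : Finset ι) (F : ι → (V → Fin d) → ℂ) :
    l1 (fun σ => ∑ i ∈ s, F i σ) ≤ ∑ i ∈ s, l1 (F i) := by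
  unfold l1
  rw [Finset.sum_comm]
  refine Finset.sum_le_sum fun m _ => ?_
  rw [co_sumf]
  exact norm_sum_le _ _

theorem l1_pow (F : (V → Fin d) → ℂ) (n : ℕ) :
    l1 (fun σ => (1 + F σ) ^ n - 1) ≤ (1 + l1 F) ^ n - 1 := by
  induction n with
  | zero =>
    have : (fun σ => (1 + F σ) ^ 0 - 1) = fun σ : V → Fin d => (0 : ℂ) * F σ := by
      funext σ
      ring
    rw [this, l1_smul]
    simp
  | succ n ih =>
    have e : (fun σ => (1 + F σ) ^ (n + 1) - 1) = fun σ : V → Fin d =>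
        (((1 + F σ) ^ n - 1) + ((1 + F σ) ^ n - 1) * F σ) + F σ := by
      funext σ
      ring
    rw [e]
    have h1 := l1_add (fun σ => ((1 + F σ) ^ n - 1) + ((1 + F σ) ^ n - 1) * F σ) F
    have h2 := l1_add (fun σ => (1 + F σ) ^ n - 1) (fun σ => ((1 + F σ) ^ n - 1) * F σ)
    have h3 := l1_mul (fun σ => (1 + F σ) ^ n - 1) F
    have h4 := l1_nonneg F
    have h5 : l1 (fun σ => (1 + F σ) ^ n - 1) * l1 F ≤ ((1 + l1 F) ^ n - 1) * l1 F :=
      mul_le_mul_of_nonneg_right ih h4
    calc _ ≤ _ := h1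
      _ ≤ (((1 + l1 F) ^ n - 1) + ((1 + l1 F) ^ n - 1) * l1 F) + l1 F := by linarith
      _ = (1 + l1 F) ^ (n + 1) - 1 := by ring

theorem l1_exp (F : (V → Fin d) → ℂ) :
    l1 (fun σ => Complex.exp (F σ) - 1) ≤ Real.exp (l1 F) - 1 := by
  have t1 : Tendsto (fun n : ℕ => l1 (fun σ => (1 + F σ / n) ^ n - 1)) atTop
      (𝓝 (l1 (fun σ => Complex.exp (F σ) - 1))) := by
    unfold l1
    refine tendsto_finsetSum _ fun m _ => Tendsto.norm ?_
    unfold co
    refine Tendsto.const_mul _ (tendsto_finsetSum _ fun σ _ => Tendsto.mul_const _ ?_)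
    exact (Complex.tendsto_one_add_div_pow_exp (F σ)).sub_const 1
  have t2 : Tendsto (fun n : ℕ => (1 + l1 F / n) ^ n - 1) atTop (𝓝 (Real.exp (l1 F) - 1)) :=
    (Real.tendsto_one_add_div_pow_exp (l1 F)).sub_const 1
  refine le_of_tendsto_of_tendsto' t1 t2 fun n => ?_
  have e : (fun σ => (1 + F σ / n) ^ n - 1) = fun σ : V → Fin d => (1 + (n : ℂ)⁻¹ * F σ) ^ n - 1 := by
    funext σ
    rw [div_eq_inv_mul]
  rw [e]
  refine (l1_pow _ n).trans ?_
  rw [l1_smul, norm_inv, Complex.norm_natCast, ← div_eq_inv_mul]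

theorem norm_ch_sub_le (m c : V → Fin d) : ‖ch m c - 1‖ ≤ 2 := by
  refine (norm_sub_le _ _).trans ?_
  rw [ch_norm, norm_one]
  norm_num

theorem l1_Gp (g : (V → Fin d) → ℂ) (c : V → Fin d) :
    l1 (fun σ => Gp g c σ) = ∑ m : V → Fin d, ‖g m‖ * ‖ch m c - 1‖ := by
  unfold l1
  refine Finset.sum_congr rfl fun m _ => ?_
  rw [co_Gp, norm_mul]

theorem l1_Gp_single (g : (V → Fin d) → ℂ) (u : V) (a : Fin d) :
    l1 (fun σ => Gp g (Pi.single u a) σ) ≤
      2 * ∑ m ∈ univ.filter (fun m : V → Fin d => m u ≠ 0), ‖g m‖ := by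
  rw [l1_Gp, Finset.sum_filter, Finset.mul_sum]
  refine Finset.sum_le_sum fun m _ => ?_
  by_cases hm : m u ≠ 0
  · rw [if_pos hm]
    have := mul_le_mul_of_nonneg_left (norm_ch_sub_le m (Pi.single u a)) (norm_nonneg (g m))
    linarith
  · rw [if_neg hm, ch_single, not_not.1 hm, zero_cr]
    simp

theorem l1_Gp_sp (g : (V → Fin d) → ℂ) (c : V → Fin d) (B : Finset V) (hB : sp c ⊆ B) :
    l1 (fun σ => Gp g c σ) ≤
      ∑ m : V → Fin d, ∑ v ∈ sp m, if v ∈ B then 2 * ‖g m‖ else 0 := by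
  rw [l1_Gp]
  refine Finset.sum_le_sum fun m _ => ?_
  by_cases hm : ∀ v, m v = 0 ∨ c v = 0
  · rw [ch_disj m c hm, sub_self, norm_zero, mul_zero]
    exact Finset.sum_nonneg fun v _ => by positivity
  · push Not at hm
    obtain ⟨v, hv1, hv2⟩ := hm
    have hv3 : v ∈ sp m := Finset.mem_filter.2 ⟨Finset.mem_univ v, hv1⟩
    have hv4 : v ∈ B := hB (Finset.mem_filter.2 ⟨Finset.mem_univ v, hv2⟩)
    have h1 := Finset.single_le_sum (f := fun v => if v ∈ B then 2 * ‖g m‖ else 0)
      (fun v _ => by positivity) hv3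
    have h2 : (if v ∈ B then 2 * ‖g m‖ else 0) = 2 * ‖g m‖ := if_pos hv4
    have h3 := mul_le_mul_of_nonneg_left (norm_ch_sub_le m c) (norm_nonneg (g m))
    simp only [h2] at h1
    linarith

theorem sp_card_sum (f : (V → Fin d) → ℝ) :
    ∑ u, ∑ m ∈ univ.filter (fun m : V → Fin d => m u ≠ 0), f m =
      ∑ m : V → Fin d, ((sp m).card : ℝ) * f m := by
  simp only [Finset.sum_filter]
  rw [Finset.sum_comm]
  refine Finset.sum_congr rfl fun m _ => ?_
  rw [← Finset.sum_filter, Finset.sum_const, nsmul_eq_mul]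
  rfl

theorem Ee_ge {e : Fin d → ℝ} {α : Fin d → ℂ} (he : IsOne α e) (m : V → Fin d) :
    ((sp m).card : ℝ) ≤ Ee e m := by
  unfold Ee sp
  rw [Finset.card_filter]
  push_cast
  refine Finset.sum_le_sum fun v _ => ?_
  by_cases hv : m v ≠ 0
  · rw [if_pos hv]
    exact_mod_cast he.one _ hv
  · rw [if_neg hv, not_not.1 hv, he.zero]

end

theorem exp_le (x : ℝ) (h0 : 0 ≤ x) (h1 : x ≤ 1) : Real.exp x - 1 ≤ 2 * x := by
  have h := Real.abs_exp_sub_one_sub_id_le (x := x) (by rw [abs_of_nonneg h0]; exact h1)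
  have h2 := abs_le.1 h
  nlinarith [h2.2]

theorem main (h : FourS) : GapS := by
  intro d _ α e V _ _ J _ c B w g E μ F he hc hg hW hE hμ hF
  set f : (V → Fin d) → ℂ := fun σ => F σ / Psi g σ with hf
  have hFf : ∀ σ, F σ = f σ * Psi g σ := fun σ => by
    rw [hf]
    exact (div_mul_cancel₀ _ (psi_ne g σ)).symm
  set a : (V → Fin d) → ℂ := fun m => co f m with ha
  have hfa : ∀ σ, f σ = ∑ m : V → Fin d, a m * ch m σ := fun σ => inv f σ
  have hdiff : ∀ (s σ : V → Fin d), f (σ + s) = f σ + Gp a s σ := by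
    intro s σ
    rw [hfa, hfa, sum_shift]
  -- the equation for f
  set eu : V → Fin d → (V → Fin d) → ℂ := fun u b σ => Complex.exp (Gp g (Pi.single u b) σ) with heu
  set ej : J → (V → Fin d) → ℂ := fun j σ => Complex.exp (Gp g (c j) σ) with hej
  have hE2 : ∀ σ, E = ∑ u, ∑ b, α b * eu u b σ + ∑ j, w j σ * ej j σ := by
    intro σ
    have h5 := hE σ
    unfold Hf at h5
    simp only [psi_shift] at h5
    have h6 : (∑ u, ∑ b, α b * eu u b σ + ∑ j, w j σ * ej j σ) * Psi g σ = E * Psi g σ := by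
      rw [← h5, add_mul, Finset.sum_mul, Finset.sum_mul]
      congr 1
      · refine Finset.sum_congr rfl fun u _ => ?_
        rw [Finset.sum_mul]
        exact Finset.sum_congr rfl fun b _ => by rw [heu]; ring
      · exact Finset.sum_congr rfl fun j _ => by rw [hej]; ring
    exact (mul_right_cancel₀ (psi_ne g σ) h6).symm
  have hF2 : ∀ σ, (E + μ) * f σ = ∑ u, ∑ b, α b * eu u b σ * f (σ + Pi.single u b) +
      ∑ j, w j σ * ej j σ * f (σ + c j) := by
    intro σ
    have h5 := hF σ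
    unfold Hf at h5
    simp only [hFf, psi_shift] at h5
    have h6 : (∑ u, ∑ b, α b * eu u b σ * f (σ + Pi.single u b) +
        ∑ j, w j σ * ej j σ * f (σ + c j)) * Psi g σ = (E + μ) * f σ * Psi g σ := by
      rw [mul_assoc, ← h5, add_mul, Finset.sum_mul, Finset.sum_mul]
      congr 1
      · refine Finset.sum_congr rfl fun u _ => ?_
        rw [Finset.sum_mul]
        exact Finset.sum_congr rfl fun b _ => by rw [heu]; ring
      · exact Finset.sum_congr rfl fun j _ => by rw [hej]; ring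
    exact (mul_right_cancel₀ (psi_ne g σ) h6).symm
  have hF3 : ∀ σ, μ * f σ = ∑ u, ∑ b, α b * eu u b σ * Gp a (Pi.single u b) σ +
      ∑ j, w j σ * ej j σ * Gp a (c j) σ := by
    intro σ
    have h5 := hF2 σ
    simp only [hdiff, mul_add, Finset.sum_add_distrib, ← Finset.sum_mul] at h5
    have h6 := hE2 σ
    linear_combination h5 - f σ * h6
  set K : (V → Fin d) → ℂ := fun σ =>
      ∑ u, ∑ b, α b * ((eu u b σ - 1) * Gp a (Pi.single u b) σ) +
      ∑ j, (w j σ * ej j σ) * Gp a (c j) σ with hK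
  have hK2 : ∀ σ, K σ = μ * f σ - ∑ u, ∑ b, α b * Gp a (Pi.single u b) σ := by
    intro σ
    rw [hF3 σ, hK]
    have h7 : ∑ u, ∑ b, α b * ((eu u b σ - 1) * Gp a (Pi.single u b) σ) =
        ∑ u, ∑ b, α b * eu u b σ * Gp a (Pi.single u b) σ -
          ∑ u, ∑ b, α b * Gp a (Pi.single u b) σ := by
      rw [← Finset.sum_sub_distrib]
      refine Finset.sum_congr rfl fun u _ => ?_
      rw [← Finset.sum_sub_distrib]
      exact Finset.sum_congr rfl fun b _ => by ring
    simp only [h7]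
    ring
  have hα0 : ∑ b, α b = 0 := by
    have h5 := he.sum 0
    rw [he.zero] at h5
    simp only [zero_cr, mul_one] at h5
    rw [h5]
    norm_num
  have hcoef : ∀ m : V → Fin d, co K m = (μ - (Ee e m : ℝ)) * a m := by
    intro m
    have e1 : K = fun σ => μ * f σ - ∑ u, ∑ b, α b * Gp a (Pi.single u b) σ := funext hK2
    rw [e1, co_sub, co_smul, co_sumf]
    have e2 : ∑ u, co (fun σ => ∑ b, α b * Gp a (Pi.single u b) σ) m = (Ee e m : ℝ) * a m := by
      unfold Ee
      push_cast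
      rw [Finset.sum_mul]
      refine Finset.sum_congr rfl fun u _ => ?_
      rw [co_sumf]
      have e3 : ∀ b, co (fun σ => α b * Gp a (Pi.single u b) σ) m =
          α b * cr (m u) b * a m - α b * a m := by
        intro b
        rw [co_smul, co_Gp, ch_single]
        ring
      rw [Finset.sum_congr rfl fun b _ => e3 b, Finset.sum_sub_distrib, ← Finset.sum_mul,
        ← Finset.sum_mul, he.sum, hα0, zero_mul, sub_zero]
    rw [e2]
    ring
  -- the sum
  set A : ℝ := ∑ b, ‖α b‖ with hA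
  have hA0 : 0 ≤ A := Finset.sum_nonneg fun _ _ => norm_nonneg _
  set S : ℝ := ∑ m : V → Fin d, ((sp m).card : ℝ) * ‖a m‖ with hS
  have hS0 : 0 ≤ S := Finset.sum_nonneg fun X _ => mul_nonneg (Nat.cast_nonneg _) (norm_nonneg _)
  have hspc : ∀ m : V → Fin d, m ≠ 0 → (1 : ℝ) ≤ (sp m).card := by
    intro m hm
    obtain ⟨v, hv⟩ := Function.ne_iff.1 hm
    have : 0 < (sp m).card := Finset.card_pos.2 ⟨v, Finset.mem_filter.2 ⟨Finset.mem_univ v, hv⟩⟩
    exact_mod_cast this
  have hlow : 1 / 2 * S ≤ l1 K := by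
    rw [hS, Finset.mul_sum]
    unfold l1
    refine Finset.sum_le_sum fun m _ => ?_
    rw [hcoef, norm_mul, ← mul_assoc]
    refine mul_le_mul_of_nonneg_right ?_ (norm_nonneg _)
    by_cases hm : m = 0
    · have : (sp m).card = 0 := by
        rw [hm]
        unfold sp
        simp
      rw [this]
      simp
    · have h4 := hspc m hm
      have h5 : |(μ - ((Ee e m : ℝ) : ℂ)).re| ≤ ‖μ - ((Ee e m : ℝ) : ℂ)‖ := Complex.abs_re_le_norm _
      have h6 : (μ - ((Ee e m : ℝ) : ℂ)).re = μ.re - Ee e m := by simp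
      rw [h6] at h5
      have h7 := neg_abs_le (μ.re - Ee e m)
      have h8 := Ee_ge he m
      linarith
  have hGu : ∀ u b, l1 (fun σ => eu u b σ - 1) ≤ 1 / (8 * (A + 1)) := by
    intro u b
    have h5 := l1_Gp_single g u b
    have h6 := hg u
    have h7 : l1 (fun σ => Gp g (Pi.single u b) σ) ≤ 1 / (16 * (A + 1)) := by
      have : (1 : ℝ) / (16 * (A + 1)) = 2 * (1 / (32 * (A + 1))) := by
        field_simp
        norm_num
      linarith
    have h8 : l1 (fun σ => Gp g (Pi.single u b) σ) ≤ 1 := by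
      refine h7.trans ?_
      rw [div_le_one (by positivity)]
      linarith
    refine (l1_exp _).trans ?_
    refine (exp_le _ (l1_nonneg _) h8).trans ?_
    have : (1 : ℝ) / (8 * (A + 1)) = 2 * (1 / (16 * (A + 1))) := by
      field_simp
      norm_num
    linarith
  have hupu : l1 (fun σ => ∑ u, ∑ b, α b * ((eu u b σ - 1) * Gp a (Pi.single u b) σ)) ≤
      1 / 4 * S := by
    have k1 : ∀ u b, l1 (fun σ => α b * ((eu u b σ - 1) * Gp a (Pi.single u b) σ)) ≤
        ‖α b‖ * (1 / (8 * (A + 1)) *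
          (2 * ∑ m ∈ univ.filter (fun m : V → Fin d => m u ≠ 0), ‖a m‖)) := by
      intro u b
      rw [l1_smul]
      refine mul_le_mul_of_nonneg_left ?_ (norm_nonneg _)
      refine (l1_mul _ _).trans ?_
      exact mul_le_mul (hGu u b) (l1_Gp_single a u b) (l1_nonneg _) (by positivity)
    calc l1 (fun σ => ∑ u, ∑ b, α b * ((eu u b σ - 1) * Gp a (Pi.single u b) σ))
        ≤ ∑ u, l1 (fun σ => ∑ b, α b * ((eu u b σ - 1) * Gp a (Pi.single u b) σ)) :=
          l1_sum univ fun u σ => ∑ b, α b * ((eu u b σ - 1) * Gp a (Pi.single u b) σ)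
      _ ≤ ∑ u, ∑ b, l1 (fun σ => α b * ((eu u b σ - 1) * Gp a (Pi.single u b) σ)) :=
          Finset.sum_le_sum fun u _ => l1_sum univ fun b σ =>
            α b * ((eu u b σ - 1) * Gp a (Pi.single u b) σ)
      _ ≤ ∑ u, ∑ b, ‖α b‖ * (1 / (8 * (A + 1)) *
          (2 * ∑ m ∈ univ.filter (fun m : V → Fin d => m u ≠ 0), ‖a m‖)) :=
          Finset.sum_le_sum fun u _ => Finset.sum_le_sum fun b _ => k1 u b
      _ = A * (1 / (4 * (A + 1))) *
          ∑ u, ∑ m ∈ univ.filter (fun m : V → Fin d => m u ≠ 0), ‖a m‖ := by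
          rw [Finset.mul_sum]
          refine Finset.sum_congr rfl fun u _ => ?_
          rw [← Finset.sum_mul, ← hA]
          have : (1 : ℝ) / (8 * (A + 1)) * 2 = 1 / (4 * (A + 1)) := by
            field_simp
            norm_num
          rw [← this]
          ring
      _ = A * (1 / (4 * (A + 1))) * S := by rw [sp_card_sum]
      _ ≤ 1 / 4 * S := by
          refine mul_le_mul_of_nonneg_right ?_ hS0
          rw [mul_one_div, div_le_div_iff₀ (by positivity) (by norm_num)]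
          linarith
  have hupj : l1 (fun σ => ∑ j, (w j σ * ej j σ) * Gp a (c j) σ) ≤ 1 / 8 * S := by
    calc l1 (fun σ => ∑ j, (w j σ * ej j σ) * Gp a (c j) σ)
        ≤ ∑ j, l1 (fun σ => (w j σ * ej j σ) * Gp a (c j) σ) :=
          l1_sum univ fun j σ => (w j σ * ej j σ) * Gp a (c j) σ
      _ ≤ ∑ j, l1 (fun σ => w j σ * ej j σ) *
          ∑ m : V → Fin d, ∑ v ∈ sp m, (if v ∈ B j then 2 * ‖a m‖ else 0) := by
          refine Finset.sum_le_sum fun j _ => ?_
          refine (l1_mul _ _).trans ?_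
          exact mul_le_mul_of_nonneg_left (l1_Gp_sp a (c j) (B j) (hc j)) (l1_nonneg _)
      _ = ∑ m : V → Fin d, ∑ v ∈ sp m, ∑ j,
          (if v ∈ B j then l1 (fun σ => w j σ * ej j σ) * (2 * ‖a m‖) else 0) := by
          simp only [Finset.mul_sum, mul_ite, mul_zero]
          rw [Finset.sum_comm]
          exact Finset.sum_congr rfl fun m _ => Finset.sum_comm
      _ ≤ ∑ m : V → Fin d, ∑ v ∈ sp m, 1 / 16 * (2 * ‖a m‖) := by
          refine Finset.sum_le_sum fun m _ => Finset.sum_le_sum fun v _ => ?_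
          rw [← Finset.sum_filter, ← Finset.sum_mul]
          exact mul_le_mul_of_nonneg_right (hW v) (by positivity)
      _ = 1 / 8 * S := by
          rw [hS, Finset.mul_sum]
          refine Finset.sum_congr rfl fun m _ => ?_
          rw [Finset.sum_const, nsmul_eq_mul]
          ring
  have hup : l1 K ≤ 3 / 8 * S := by
    rw [hK]
    refine (l1_add _ _).trans ?_
    linarith
  have hSz : S = 0 := by linarith
  have haz : ∀ m : V → Fin d, m ≠ 0 → a m = 0 := by
    intro m hm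
    have h5 := (Finset.sum_eq_zero_iff_of_nonneg
      (fun X _ => mul_nonneg (Nat.cast_nonneg _) (norm_nonneg _))).1 (hS ▸ hSz) m
      (Finset.mem_univ m)
    have hc : ((sp m).card : ℝ) ≠ 0 := by
      have := hspc m hm
      intro h
      rw [h] at this
      linarith
    have h6 := (mul_eq_zero.1 h5).resolve_left hc
    exact norm_eq_zero.1 h6
  refine ⟨a 0, fun σ => ?_⟩
  rw [hFf, hfa, Finset.sum_eq_single (0 : V → Fin d)]
  · rw [zero_ch, mul_one]
  · intro m _ hm
    rw [haz m hm, zero_mul]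
  · intro h5
    exact absurd (Finset.mem_univ _) h5

end Pool.Agent.Q277.KG.GA
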