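import Pool.Agent.Q277.KG.FO

/-!
# Job KG-RP of project KG (helper277): the truncated sum is a PEPS (after helper265 for project KT)
-/

set_option autoImplicit false

open scoped BigOperators
open Finset Pool.Agent.TH235.PP

set_option linter.unusedSectionVars false

set_option synthInstance.maxSize 100000

namespace Pool.Agent.Q277.KG.RP

open Pool.Agent.Q234.KG
open Pool.Agent.Q234.KT (Zc Conn load adj)
open Pool.Agent.Q277.KG.FO (zero_cr)

section gen

variable {P T : Type} [Fintype P] [DecidableEq P] [Fintype T] [DecidableEq T]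

/-- the typed set of a set with a choice of types -/
def mk (A : Finset P) (p : (a : P) → a ∈ A → T) : Finset (P × T) :=
  A.attach.image fun x => (x.1, p x.1 x.2)

/-- every element has at most one type -/
def Fn (Q : Finset (P × T)) : Prop := ∀ p ∈ Q, ∀ q ∈ Q, p.1 = q.1 → p = q

instance : DecidablePred (Fn (P := P) (T := T)) := fun Q => by
  unfold Fn
  infer_instance

theorem mem_mk {A : Finset P} {p : (a : P) → a ∈ A → T} {X : P} {l : T} :
    (X, l) ∈ mk A p ↔ ∃ h : X ∈ A, p X h = l := by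
  unfold mk
  rw [Finset.mem_image]
  constructor
  · rintro ⟨x, _, hx⟩
    obtain ⟨rfl, rfl⟩ := Prod.mk.inj hx
    exact ⟨x.2, rfl⟩
  · rintro ⟨h, rfl⟩
    exact ⟨⟨X, h⟩, Finset.mem_attach _ _, rfl⟩

theorem inj_mk (A : Finset P) (p : (a : P) → a ∈ A → T) :
    Set.InjOn (fun x : {a // a ∈ A} => (x.1, p x.1 x.2)) (A.attach : Set {a // a ∈ A}) := by
  intro x _ y _ hxy
  exact Subtype.ext (Prod.mk.inj hxy).1

theorem prod_mk (A : Finset P) (p : (a : P) → a ∈ A → T) (f : P × T → ℂ) :
    ∏ q ∈ mk A p, f q = ∏ x ∈ A.attach, f (x.1, p x.1 x.2) :=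
  Finset.prod_image (inj_mk A p)

theorem fn_mk (A : Finset P) (p : (a : P) → a ∈ A → T) : Fn (mk A p) := by
  rintro ⟨X, l⟩ hp ⟨Y, k⟩ hq h
  obtain ⟨h1, h2⟩ := mem_mk.1 hp
  obtain ⟨h3, h4⟩ := mem_mk.1 hq
  have h5 : X = Y := h
  subst h5
  rw [← h2, ← h4]

theorem image_mk (A : Finset P) (p : (a : P) → a ∈ A → T) : (mk A p).image Prod.fst = A := by
  ext X
  rw [Finset.mem_image]
  constructor
  · rintro ⟨⟨Y, l⟩, h, rfl⟩
    exact (mem_mk.1 h).1
  · intro h
    exact ⟨(X, p X h), mem_mk.2 ⟨h, rfl⟩, rfl⟩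

theorem sum_fst {Q : Finset (P × T)} (hQ : Fn Q) (f : P → ℕ) :
    ∑ p ∈ Q, f p.1 = ∑ X ∈ Q.image Prod.fst, f X :=
  (Finset.sum_image fun p hp q hq h => hQ p hp q hq h).symm

theorem sum_typed (al : P → Finset T) (C : Finset P → Prop) [DecidablePred C]
    (C' : Finset (P × T) → Prop) [DecidablePred C']
    (hC : ∀ Q, Fn Q → (C' Q ↔ C (Q.image Prod.fst))) (f : P × T → ℂ) :
    ∑ A ∈ univ.filter C, ∏ X ∈ A, ∑ l ∈ al X, f (X, l) =
      ∑ Q ∈ univ.filter (fun Q => Fn Q ∧ (∀ p ∈ Q, p.2 ∈ al p.1) ∧ C' Q), ∏ p ∈ Q, f p := by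
  simp_rw [Finset.prod_sum]
  rw [Finset.sum_sigma']
  refine Finset.sum_bij (fun x _ => mk x.1 x.2) ?_ ?_ ?_ ?_
  · rintro ⟨A, p⟩ h
    simp only [mem_sigma, mem_filter, mem_univ, true_and, Finset.mem_pi] at h ⊢
    refine ⟨fn_mk A p, ?_, ?_⟩
    · rintro ⟨X, l⟩ hX
      obtain ⟨h1, rfl⟩ := mem_mk.1 hX
      exact h.2 X h1
    · rw [hC _ (fn_mk A p), image_mk]
      exact h.1
  · rintro ⟨A, p⟩ h ⟨A', p'⟩ h' hh
    have hh' : mk A p = mk A' p' := hh
    have hA : A = A' := by
      rw [← image_mk A p, ← image_mk A' p', hh']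
    subst hA
    have hp : p = p' := by
      funext X hX
      have h1 : (X, p X hX) ∈ mk A p' := by
        rw [← hh']
        exact mem_mk.2 ⟨hX, rfl⟩
      obtain ⟨_, h3⟩ := mem_mk.1 h1
      exact h3.symm
    rw [hp]
  · intro Q hQ
    simp only [mem_filter, mem_univ, true_and] at hQ
    have hex : ∀ X ∈ Q.image Prod.fst, ∃ l, (X, l) ∈ Q := by
      intro X hX
      obtain ⟨⟨Y, l⟩, h, rfl⟩ := Finset.mem_image.1 hX
      exact ⟨l, h⟩
    choose p hp using hex
    have hmk : mk (Q.image Prod.fst) p = Q := by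
      ext ⟨X, l⟩
      rw [mem_mk]
      constructor
      · rintro ⟨h, rfl⟩
        exact hp X h
      · intro h
        have h1 : X ∈ Q.image Prod.fst := Finset.mem_image.2 ⟨(X, l), h, rfl⟩
        refine ⟨h1, ?_⟩
        have h2 := hQ.1 _ (hp X h1) _ h rfl
        exact (Prod.mk.inj h2).2
    refine ⟨⟨Q.image Prod.fst, p⟩, ?_, hmk⟩
    simp only [mem_sigma, mem_filter, mem_univ, true_and, Finset.mem_pi]
    refine ⟨(hC Q hQ.1).1 hQ.2.2, ?_⟩
    intro X hX
    exact hQ.2.1 _ (hp X hX)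
  · rintro ⟨A, p⟩ h
    rw [prod_mk]

end gen

section torus

variable {L : ℕ} [NeZero L] {TP : Type} [Fintype TP] [DecidableEq TP]

theorem consistent (g : TP → Finset (Site L)) (hg : ∀ p, Conn (g p)) (Qf : Site L → Finset TP)
    (h0 : ∀ v, ∀ p ∈ Qf v, v ∈ g p)
    (h1 : ∀ x : Site L, (Qf x).filter (fun p => ((x.1 + 1, x.2) : Site L) ∈ g p) =
      (Qf (x.1 + 1, x.2)).filter (fun p => ((x.1 + 1 - 1, x.2) : Site L) ∈ g p))
    (h2 : ∀ x : Site L, (Qf x).filter (fun p => ((x.1, x.2 + 1) : Site L) ∈ g p) =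
      (Qf (x.1, x.2 + 1)).filter (fun p => ((x.1, x.2 + 1 - 1) : Site L) ∈ g p)) (v : Site L) :
    Qf v = (univ.biUnion Qf).filter (fun p => v ∈ g p) := by
  ext p
  simp only [mem_filter, mem_biUnion, mem_univ, true_and]
  refine ⟨fun h => ⟨⟨v, h⟩, h0 v p h⟩, ?_⟩
  rintro ⟨⟨v₀, hv₀⟩, hv⟩
  have e1 : ∀ x : Site L, (x.1 + 1 - 1, x.2) = x := fun x => by rw [add_sub_cancel_right]
  have e2 : ∀ x : Site L, (x.1, x.2 + 1 - 1) = x := fun x => by rw [add_sub_cancel_right]
  by_contra hp
  set T : Finset (Site L) := (g p).filter (fun u => p ∈ Qf u) with hT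
  have hTs : T ⊆ g p := filter_subset _ _
  have hTn : T.Nonempty := ⟨v₀, mem_filter.2 ⟨h0 v₀ p hv₀, hv₀⟩⟩
  have hTe : T ≠ g p := by
    intro h
    rw [← h] at hv
    exact hp (mem_filter.1 hv).2
  obtain ⟨u, hu, w, hw, hwT, hadj⟩ := hg p T hTs hTn hTe
  obtain ⟨hu1, hu2⟩ := mem_filter.1 hu
  apply hwT
  rw [hT, mem_filter]
  refine ⟨hw, ?_⟩
  rcases hadj with h | h | h | h
  · have h3 := h1 u
    have h4 : p ∈ (Qf u).filter (fun p => ((u.1 + 1, u.2) : Site L) ∈ g p) :=
      mem_filter.2 ⟨hu2, by rw [← h]; exact hw⟩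
    rw [h3, mem_filter, ← h] at h4
    exact h4.1
  · have h3 := h2 u
    have h4 : p ∈ (Qf u).filter (fun p => ((u.1, u.2 + 1) : Site L) ∈ g p) :=
      mem_filter.2 ⟨hu2, by rw [← h]; exact hw⟩
    rw [h3, mem_filter, ← h] at h4
    exact h4.1
  · have h3 := h1 w
    have h4 : p ∈ (Qf (w.1 + 1, w.2)).filter (fun p => ((w.1 + 1 - 1, w.2) : Site L) ∈ g p) :=
      mem_filter.2 ⟨by rw [← h]; exact hu2, by rw [e1]; exact hw⟩
    rw [← h3, mem_filter] at h4
    exact h4.1
  · have h3 := h2 w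
    have h4 : p ∈ (Qf (w.1, w.2 + 1)).filter (fun p => ((w.1, w.2 + 1 - 1) : Site L) ∈ g p) :=
      mem_filter.2 ⟨by rw [← h]; exact hu2, by rw [e2]; exact hw⟩
    rw [← h3, mem_filter] at h4
    exact h4.1

theorem edge1 (g : TP → Finset (Site L)) (Q : Finset TP) (x : Site L) :
    (Q.filter (fun p => x ∈ g p)).filter (fun p => ((x.1 + 1, x.2) : Site L) ∈ g p) =
      (Q.filter (fun p => ((x.1 + 1, x.2) : Site L) ∈ g p)).filter
        (fun p => ((x.1 + 1 - 1, x.2) : Site L) ∈ g p) := by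
  ext p
  have e1 : ((x.1 + 1 - 1, x.2) : Site L) = x := by rw [add_sub_cancel_right]
  rw [e1]
  simp only [mem_filter]
  tauto

theorem edge2 (g : TP → Finset (Site L)) (Q : Finset TP) (x : Site L) :
    (Q.filter (fun p => x ∈ g p)).filter (fun p => ((x.1, x.2 + 1) : Site L) ∈ g p) =
      (Q.filter (fun p => ((x.1, x.2 + 1) : Site L) ∈ g p)).filter
        (fun p => ((x.1, x.2 + 1 - 1) : Site L) ∈ g p) := by
  ext p
  have e1 : ((x.1, x.2 + 1 - 1) : Site L) = x := by rw [add_sub_cancel_right]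
  rw [e1]
  simp only [mem_filter]
  tauto

theorem bU (g : TP → Finset (Site L)) (hg : ∀ p, (g p).Nonempty) (Q : Finset TP) :
    (univ.biUnion fun v : Site L => Q.filter (fun p => v ∈ g p)) = Q := by
  ext p
  simp only [mem_biUnion, mem_univ, true_and, mem_filter]
  constructor
  · rintro ⟨v, h, -⟩
    exact h
  · intro h
    obtain ⟨v, hv⟩ := hg p
    exact ⟨v, h, hv⟩

end torus

theorem main (hloc : LocS) : RepS := by
  intro d L _ _ h β s D hsub hconn hD
  have hne : ∀ X, (h X).Nonempty := fun X => X.2.mono (hsub X)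
  choose root hroot using hne
  set TP := Pol (Site L) × (Site L → Fin d) with hTP
  set g : TP → Finset (Site L) := fun p => h p.1 with hg
  set sel : Site L → Finset TP → Finset TP := fun v N => if N ∈ typ d h s v then N else ∅ with hsel
  set w : Site L → Fin d → TP → ℂ := fun v a p =>
    (if v = root p.1 then β p.1 p.2 else 1) * cr (p.2 v) a with hw
  set W : Site L → Fin d → Finset TP → ℂ := fun v a N =>
    if Fn N ∧ N ∈ typ d h s v then ∏ p ∈ N, w v a p else 0 with hW
  have hempty : ∀ v, (∅ : Finset TP) ∈ typ d h s v := by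
    intro v
    simp [typ]
  have hselt : ∀ v N, sel v N ∈ typ d h s v := by
    intro v N
    simp only [hsel]
    split_ifs with h1
    · exact h1
    · exact hempty v
  have hsubt : ∀ v (N : Finset TP) (q : TP → Prop) [DecidablePred q], N ∈ typ d h s v →
      N.filter q ∈ typ d h s v := by
    intro v N q _ hN
    simp only [typ, mem_filter, mem_univ, true_and] at hN ⊢
    refine ⟨fun p hp => hN.1 p hp.1, le_trans (sum_le_sum_of_subset (filter_subset _ _)) hN.2⟩
  obtain ⟨A, hA⟩ := hloc d L (Finset TP) (Finset TP) D W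
    (fun x N => N.filter (fun p => ((x.1 - 1, x.2) : Site L) ∈ g p))
    (fun x N => (sel x N).filter (fun p => ((x.1 + 1, x.2) : Site L) ∈ g p))
    (fun x N => N.filter (fun p => ((x.1, x.2 - 1) : Site L) ∈ g p))
    (fun x N => (sel x N).filter (fun p => ((x.1, x.2 + 1) : Site L) ∈ g p))
    (fun x => typ d h s x) (fun x => typ d h s x) hD hD (fun x N => hsubt x _ _ (hselt x N))
    (fun x N => hsubt x _ _ (hselt x N))
  refine ⟨A, ?_⟩
  rw [← hA]
  funext σ
  set f : TP → ℂ := fun p => β p.1 p.2 * ch p.2 σ with hf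
  have hf' : ∀ p : TP, sp p.2 ⊆ p.1.1 → ∏ v ∈ h p.1, w v (σ v) p = f p := by
    intro p hp
    simp only [hw, hf]
    rw [prod_mul_distrib, prod_ite_eq', if_pos (hroot p.1)]
    congr 1
    unfold ch
    refine prod_subset (subset_univ _) fun v _ hv => ?_
    have h1 : p.2 v = 0 := by
      by_contra h2
      exact hv (hsub p.1 (hp (mem_filter.2 ⟨mem_univ v, h2⟩)))
    rw [h1, zero_cr]
  have e1 : Zc h (fun X => ∑ l ∈ univ.filter (fun l : Site L → Fin d => sp l ⊆ X.1), β X l * ch l σ)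
      (fun _ => s) =
      ∑ Q ∈ univ.filter (fun Q : Finset TP => Fn Q ∧
        (∀ p ∈ Q, p.2 ∈ univ.filter (fun l : Site L → Fin d => sp l ⊆ p.1.1)) ∧
        ∀ v, ∑ p ∈ Q.filter (fun p => v ∈ h p.1), (h p.1).card ≤ s), ∏ p ∈ Q, f p := by
    rw [← sum_typed (fun X : Pol (Site L) => univ.filter (fun l : Site L → Fin d => sp l ⊆ X.1))
      (fun P => ∀ v, load h P v ≤ s)]
    · rfl
    · intro Q hQ
      refine forall_congr' fun v => ?_
      have h1 : ∑ p ∈ Q.filter (fun p => v ∈ h p.1), (h p.1).card = load h (Q.image Prod.fst) v := by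
        unfold load
        rw [sum_filter, sum_filter]
        exact sum_fst hQ fun X => if v ∈ h X then (h X).card else 0
      rw [h1]
  have htyp : ∀ (Q : Finset TP) (v : Site L), (∀ p ∈ Q, sp p.2 ⊆ p.1.1) →
      (∑ p ∈ Q.filter (fun p => v ∈ h p.1), (h p.1).card ≤ s) →
      Q.filter (fun p => v ∈ g p) ∈ typ d h s v := by
    intro Q v hQ0 hQ
    simp only [typ, mem_filter, mem_univ, true_and]
    exact ⟨fun p hp => ⟨hQ0 p hp.1, hp.2⟩, hQ⟩
  rw [e1]
  refine Finset.sum_of_injOn (fun (Q : Finset TP) (v : Site L) => Q.filter (fun p => v ∈ g p)) ?_ ?_ ?_ ?_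
  · intro Q _ Q' _ hQQ
    simp only at hQQ
    rw [← bU g (fun p => ⟨_, hroot p.1⟩) Q, ← bU g (fun p => ⟨_, hroot p.1⟩) Q', hQQ]
  · intro Q hQ
    simp only [coe_filter, mem_univ, true_and, Set.mem_ofPred_eq, mem_filter] at hQ ⊢
    have hs : ∀ v, sel v (Q.filter (fun p => v ∈ g p)) = Q.filter (fun p => v ∈ g p) := by
      intro v
      simp only [hsel]
      rw [if_pos (htyp Q v hQ.2.1 (hQ.2.2 v))]
    refine ⟨fun x => ?_, fun x => ?_⟩
    · rw [hs x]
      exact edge1 g Q x
    · rw [hs x]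
      exact edge2 g Q x
  · intro Qf hQf hni
    simp only [mem_filter, mem_univ, true_and] at hQf
    by_contra hne
    have hgood : ∀ x, Fn (Qf x) ∧ Qf x ∈ typ d h s x := by
      intro x
      by_contra hx
      apply hne
      apply prod_eq_zero (mem_univ x)
      simp only [hW]
      rw [if_neg hx]
    have hs : ∀ v, sel v (Qf v) = Qf v := by
      intro v
      simp only [hsel]
      rw [if_pos (hgood v).2]
    have hmem : ∀ v, ∀ p ∈ Qf v, v ∈ g p := by
      intro v p hp
      have := (hgood v).2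
      simp only [typ, mem_filter, mem_univ, true_and] at this
      exact (this.1 p hp).2
    have hc := consistent g (fun p => hconn p.1) Qf hmem
      (fun x => by have := hQf.1 x; rw [hs x] at this; exact this)
      (fun x => by have := hQf.2 x; rw [hs x] at this; exact this)
    apply hni
    refine ⟨univ.biUnion Qf, ?_, ?_⟩
    · simp only [coe_filter, mem_univ, true_and, Set.mem_ofPred_eq, mem_filter]
      refine ⟨?_, ?_, ?_⟩
      · intro p h1 q h2 hpq
        have hv : root p.1 ∈ g p := hroot p.1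
        have hv' : root p.1 ∈ g q := by
          have : g q = g p := by
            simp only [hg]
            rw [hpq]
          rw [this]
          exact hv
        have h3 : p ∈ Qf (root p.1) := by
          rw [hc (root p.1), mem_filter]
          exact ⟨h1, hv⟩
        have h4 : q ∈ Qf (root p.1) := by
          rw [hc (root p.1), mem_filter]
          exact ⟨h2, hv'⟩
        exact (hgood (root p.1)).1 p h3 q h4 hpq
      · intro p hp
        obtain ⟨v, _, hv⟩ := mem_biUnion.1 hp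
        have := (hgood v).2
        simp only [typ, mem_filter, mem_univ, true_and] at this
        exact (this.1 p hv).1
      · intro v
        have := (hgood v).2
        simp only [typ, mem_filter, mem_univ, true_and] at this
        have h5 := this.2
        rw [hc v] at h5
        exact h5
    · funext v
      exact (hc v).symm
  · intro Q hQ
    simp only [mem_filter, mem_univ, true_and] at hQ
    have h1 : ∀ x, W x (σ x) (Q.filter (fun p => x ∈ g p)) =
        ∏ p ∈ Q.filter (fun p => x ∈ g p), w x (σ x) p := by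
      intro x
      simp only [hW]
      rw [if_pos]
      refine ⟨?_, htyp Q x hQ.2.1 (hQ.2.2 x)⟩
      intro p h3 q h4 hpq
      exact hQ.1 p (mem_filter.1 h3).1 q (mem_filter.1 h4).1 hpq
    simp only [h1]
    rw [prod_comm' (t' := Q) (s' := fun p => h p.1)]
    · exact prod_congr rfl fun p hp => (hf' p (hQ.2.1 p hp)).symm
    · intro x p
      simp only [mem_univ, true_and, mem_filter, hg]
      tauto

end Pool.Agent.Q277.KG.RP
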